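import Pool.Agent.H14.PNF.S6

/-!
# PNF, row P6N: finitely many primes above two and three
-/

set_option autoImplicit false

namespace Pool.PNF

open Polynomial Matrix NumberField IsDedekindDomain Pool.HYP Pool.TOW Pool.AVS Pool.T1 Pool.NF
  Pool.PRK

theorem p6n : P6NStmt := by
  intro K _ _
  have h6 : Ideal.span {(6 : 𝓞 K)} ≠ 0 := by
    rw [Ne, Ideal.zero_eq_bot, Ideal.span_singleton_eq_bot]
    have : ((6 : ℕ) : 𝓞 K) ≠ 0 := Nat.cast_ne_zero.2 (by norm_num)
    exact_mod_cast this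
  refine (Ideal.finite_factors h6).subset fun P hP => ?_
  change P.asIdeal ∣ Ideal.span {(6 : 𝓞 K)}
  rw [Ideal.dvd_span_singleton]
  rcases hP with h | h
  · have h2 : (6 : 𝓞 K) = 3 * 2 := by norm_num
    rw [h2]
    exact P.asIdeal.mul_mem_left _ h
  · have h2 : (6 : 𝓞 K) = 2 * 3 := by norm_num
    rw [h2]
    exact P.asIdeal.mul_mem_left _ h

end Pool.PNF
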