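import Pool.Agent.H14.PNF.S6

/-!
# PNF, row DNZN: the family has positive density
-/

set_option autoImplicit false

namespace Pool.PNF

open Polynomial Matrix NumberField IsDedekindDomain Pool.HYP Pool.TOW Pool.AVS Pool.T1 Pool.NF
  Pool.PRK

theorem dnzn : DNZNStmt := by
  classical
  intro hZ hTWF hALL K _ _ A D hL hden hA hD dS hdS E hE1 hE
  obtain ⟨cL, hcL⟩ := hL
  obtain ⟨Y₂, h2⟩ := hden D hD hA
  obtain ⟨Y₃, h3⟩ := hcL D hD
  obtain ⟨c₀, C, hc₀, hC, hall⟩ := hALL K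
  obtain ⟨W, hW⟩ : ∃ W : ℝ, W = |cL * ((∏ P ∈ D.T, (Nm P : ℝ) ^ 3) *
    ∏ P ∈ D.T', (Nm P : ℝ) ^ 3)| + 1 := ⟨_, rfl⟩
  have hW0 : 0 < W := by rw [hW]; positivity
  have hE0 : (1 : ℝ) ≤ E := by exact_mod_cast hE1
  obtain ⟨M, hM⟩ : ∃ M : ℝ, M = C * (2 * (E : ℝ)) ^ (6 * dg K) * (2 * W) := ⟨_, rfl⟩
  have hM0 : 0 < M := by rw [hM]; positivity
  refine ⟨M⁻¹, by positivity, max Y₂ (max Y₃ 1), fun Y hY => ?_⟩
  have hY2 : Y₂ ≤ Y := (le_max_left _ _).trans hY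
  have hY3 : Y₃ ≤ Y := (le_max_left _ _).trans ((le_max_right _ _).trans hY)
  have hY1 : 1 ≤ Y := (le_max_right _ _).trans ((le_max_right _ _).trans hY)
  have hY1R : (1 : ℝ) ≤ Y := by exact_mod_cast hY1
  obtain ⟨hfin, hlow⟩ := h3 Y hY3
  have hSfin : (FamSN D Y).Finite := hfin.subset fun f hf => hf.1
  have h4 : (FamN D Y).ncard ≤ 2 * (FamSN D Y).ncard := by
    have h5 : FamN D Y ⊆ FamSN D Y ∪ {f ∈ FamN D Y | ¬ Smooth f} := by
      intro f hf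
      by_cases h6 : Smooth f
      · exact Or.inl ⟨hf, h6⟩
      · exact Or.inr ⟨hf, h6⟩
    have h7 : (FamN D Y).ncard ≤ (FamSN D Y ∪ {f ∈ FamN D Y | ¬ Smooth f}).ncard :=
      Set.ncard_le_ncard h5 (hSfin.union (hfin.subset fun f hf => hf.1))
    have h8 := Set.ncard_union_le (FamSN D Y) {f ∈ FamN D Y | ¬ Smooth f}
    have h9 := h2 Y hY2
    omega
  have hlow2 : (Y : ℝ) ^ (6 * dg K) ≤ (FamN D Y).ncard * W := by
    refine hlow.trans ?_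
    have h5 : cL * (((FamN D Y).ncard : ℝ) * (∏ P ∈ D.T, (Nm P : ℝ) ^ 3) *
        ∏ P ∈ D.T', (Nm P : ℝ) ^ 3) = ((FamN D Y).ncard : ℝ) *
        (cL * ((∏ P ∈ D.T, (Nm P : ℝ) ^ 3) * ∏ P ∈ D.T', (Nm P : ℝ) ^ 3)) := by ring
    rw [h5]
    apply mul_le_mul_of_nonneg_left _ (Nat.cast_nonneg _)
    rw [hW]
    exact (le_abs_self _).trans (by linarith)
  have hNpos : 0 < (FamN D Y).ncard := by
    rcases Nat.eq_zero_or_pos (FamN D Y).ncard with h0 | h0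
    · rw [h0] at hlow2
      have h6 : (0 : ℝ) < (Y : ℝ) ^ (6 * dg K) := by positivity
      push_cast at hlow2
      rw [zero_mul] at hlow2
      linarith
    · exact h0
  have hSpos : 0 < (FamSN D Y).ncard := by omega
  obtain ⟨hZ1, hZ2⟩ := (hZ K D Y hD dS hdS).2 (FamSN D Y) (fun f hf => hf.1) hSfin
  have hSl : 0 < (Sl D.T).card := by
    obtain ⟨S, hS1, hS2⟩ := Finset.exists_subset_card_eq (Nat.div_le_self D.T.card 2)
    exact Finset.card_pos.2 ⟨S, Finset.mem_filter.2 ⟨Finset.mem_powerset.2 hS1, Or.inl hS2⟩⟩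
  have hZS : (FamSN D Y).ncard ≤ (ZAN D dS (FamSN D Y)).ncard := by
    rw [hZ2]
    exact Nat.le_mul_of_pos_left _ hSl
  have hbig : (1 : ℝ) ≤ 2 * E * Y := by nlinarith
  obtain ⟨hAfin, -, hAup, -⟩ := hall (2 * E * Y) hbig
  refine ⟨hfin, (Set.ncard_pos hSfin).1 hSpos, hAfin, ?_, ?_⟩
  · rintro q ⟨f, hf, S, hS, rfl⟩
    have hS' : S ⊆ D.T := Finset.mem_powerset.1 (Finset.mem_filter.1 hS).1
    exact ⟨_, hTWF K D Y E (dS S) hE1 (hE S hS') f hf.1, rfl⟩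
  · rw [inv_mul_le_iff₀ hM0]
    have h5 : ((FamN D Y).ncard : ℝ) ≤ 2 * ((ZAN D dS (FamSN D Y)).ncard : ℝ) := by
      exact_mod_cast h4.trans (Nat.mul_le_mul_left _ hZS)
    calc ((AllN K (2 * E * Y)).ncard : ℝ) ≤ C * (2 * E * Y) ^ (6 * dg K) := hAup
      _ = C * (2 * (E : ℝ)) ^ (6 * dg K) * (Y : ℝ) ^ (6 * dg K) := by rw [mul_pow]; ring
      _ ≤ C * (2 * (E : ℝ)) ^ (6 * dg K) * (2 * ((ZAN D dS (FamSN D Y)).ncard : ℝ) * W) := by
          apply mul_le_mul_of_nonneg_left _ (by positivity)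
          exact hlow2.trans (mul_le_mul_of_nonneg_right h5 hW0.le)
      _ = M * ((ZAN D dS (FamSN D Y)).ncard : ℝ) := by rw [hM]; ring

end Pool.PNF
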